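import Mathlib

/-!
# Kneser graphs are edge Ramsey: a variance inequality on the cube and hitting numbers
-/

set_option autoImplicit false

open Finset

namespace Pool.Agent.Q119.KR

/-- A variance inequality on the cube: an antipodal difference of a function that changes by at
most `L` along the edges of the cube is small in mean square. -/
theorem var_bool (b : ℕ) (L : ℝ) : ∀ (f : (Fin b → Bool) → ℝ),
    (∀ s s' : Fin b → Bool, ∀ t, (∀ u, u ≠ t → s u = s' u) → |f s - f s'| ≤ L) →
    ∑ s : Fin b → Bool, (f s - f (fun t => !(s t))) ^ 2 ≤ b * L ^ 2 * 2 ^ b := by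
  induction b with
  | zero =>
    intro f _
    have : ∀ s : Fin 0 → Bool, (fun t => !(s t)) = s := fun s => funext fun t => t.elim0
    simp [this]
  | succ b ih =>
    intro f hf
    have key : ∀ F : (Fin (b + 1) → Bool) → ℝ, ∑ s, F s =
        ∑ s : Fin b → Bool, (F (Fin.cons false s) + F (Fin.cons true s)) := by
      intro F
      rw [← (Fin.consEquiv (fun _ : Fin (b + 1) => Bool)).sum_comp F, Fintype.sum_prod_type,
        Fintype.sum_bool, ← Finset.sum_add_distrib]
      refine Finset.sum_congr rfl fun s _ => ?_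
      rw [add_comm]
      rfl
    have hneg : ∀ (a : Bool) (s : Fin b → Bool),
        (fun t => !((Fin.cons a s : Fin (b + 1) → Bool) t)) =
          (Fin.cons (!a) (fun t => !(s t)) : Fin (b + 1) → Bool) := by
      intro a s
      funext t
      refine Fin.cases ?_ (fun t => ?_) t
      · simp
      · simp
    rw [key]
    simp only [hneg, Bool.not_false, Bool.not_true]
    set u : (Fin b → Bool) → ℝ := fun s => (f (Fin.cons false s) + f (Fin.cons true s)) / 2
      with hu
    have hL : 0 ≤ L := by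
      have := hf (fun _ => false) (fun _ => false) 0 (fun _ _ => rfl)
      simpa using this
    have h0 : ∀ s : Fin b → Bool, |f (Fin.cons false s) - f (Fin.cons true s)| ≤ L := by
      intro s
      apply hf _ _ 0
      intro w hw
      obtain ⟨w', rfl⟩ := Fin.exists_succ_eq.mpr hw
      simp
    have hcons : ∀ (a : Bool) (s s' : Fin b → Bool) (t : Fin b), (∀ w, w ≠ t → s w = s' w) →
        |f (Fin.cons a s) - f (Fin.cons a s')| ≤ L := by
      intro a s s' t hst
      apply hf _ _ t.succ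
      intro w
      refine Fin.cases ?_ (fun w => ?_) w
      · intro _; simp
      · intro hw
        simp only [Fin.cons_succ]
        exact hst w (fun h => hw (by rw [h]))
    have hu' : ∀ s s' : Fin b → Bool, ∀ t, (∀ w, w ≠ t → s w = s' w) → |u s - u s'| ≤ L := by
      intro s s' t hst
      have h1 := hcons false s s' t hst
      have h2 := hcons true s s' t hst
      rw [abs_le] at h1 h2 ⊢
      simp only [hu]
      constructor <;> linarith [h1.1, h1.2, h2.1, h2.2]
    have hih := ih u hu'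
    calc ∑ s : Fin b → Bool, ((f (Fin.cons false s) - f (Fin.cons true fun t => !(s t))) ^ 2 +
          (f (Fin.cons true s) - f (Fin.cons false fun t => !(s t))) ^ 2)
        ≤ ∑ s : Fin b → Bool, (2 * (u s - u fun t => !(s t)) ^ 2 + 2 * L ^ 2) := by
          refine Finset.sum_le_sum fun s _ => ?_
          have h1 := h0 s
          have h2 := h0 (fun t => !(s t))
          set p := f (Fin.cons false s)
          set p' := f (Fin.cons true s)
          set w := f (Fin.cons false fun t => !(s t))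
          set w' := f (Fin.cons true fun t => !(s t))
          have e1 : u s = (p + p') / 2 := rfl
          have e2 : (u fun t => !(s t)) = (w + w') / 2 := rfl
          rw [e1, e2]
          have h3 : ((p - p') + (w - w')) ^ 2 ≤ (2 * L) ^ 2 := by
            rw [sq_le_sq]
            rw [abs_of_nonneg (by linarith : (0:ℝ) ≤ 2 * L)]
            calc |(p - p') + (w - w')| ≤ |p - p'| + |w - w'| := abs_add_le _ _
              _ ≤ 2 * L := by linarith
          nlinarith [h3]
      _ = 2 * (∑ s : Fin b → Bool, (u s - u fun t => !(s t)) ^ 2) + 2 ^ b * (2 * L ^ 2) := by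
          rw [Finset.sum_add_distrib, ← Finset.mul_sum, Finset.sum_const, Finset.card_univ]
          simp
      _ ≤ 2 * (b * L ^ 2 * 2 ^ b) + 2 ^ b * (2 * L ^ 2) := by linarith
      _ = ((b + 1 : ℕ) : ℝ) * L ^ 2 * 2 ^ (b + 1) := by push_cast; ring

section Hit

variable {Y : Type} [Fintype Y] [DecidableEq Y]

/-- `R` meets every member of the family `𝓖` that is contained in `A`. -/
def Hits (𝓖 : Finset Y → Prop) (A R : Finset Y) : Prop :=
  ∀ Z, 𝓖 Z → Z ⊆ A → ¬ Disjoint Z R

/-- The least size of a set that meets all members of `𝓖` contained in `A`. -/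
noncomputable def hit (𝓖 : Finset Y → Prop) (A : Finset Y) : ℕ :=
  sInf {r | ∃ R : Finset Y, R.card = r ∧ Hits 𝓖 A R}

theorem hit_le {𝓖 : Finset Y → Prop} {A R : Finset Y} (h : Hits 𝓖 A R) : hit 𝓖 A ≤ R.card :=
  Nat.sInf_le ⟨R, rfl, h⟩

theorem hit_exists {𝓖 : Finset Y → Prop} (h𝓖 : ∀ Z, 𝓖 Z → Z.Nonempty) (A : Finset Y) :
    ∃ R : Finset Y, R.card = hit 𝓖 A ∧ Hits 𝓖 A R := by
  have hne : {r | ∃ R : Finset Y, R.card = r ∧ Hits 𝓖 A R}.Nonempty := by
    refine ⟨A.card, A, rfl, fun Z hZ hZA hd => ?_⟩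
    obtain ⟨z, hz⟩ := h𝓖 Z hZ
    exact Finset.disjoint_left.mp hd hz (hZA hz)
  exact Nat.sInf_mem hne

theorem hit_lip {𝓖 : Finset Y → Prop} (h𝓖 : ∀ Z, 𝓖 Z → Z.Nonempty) (A A' : Finset Y) :
    hit 𝓖 A' ≤ hit 𝓖 A + (A' \ A).card := by
  obtain ⟨R, hR, hh⟩ := hit_exists h𝓖 A
  rw [← hR]
  refine le_trans (hit_le (R := R ∪ (A' \ A)) ?_) (Finset.card_union_le _ _)
  intro Z hZ hZA hd
  rw [Finset.disjoint_union_right] at hd
  by_cases hc : Z ⊆ A
  · exact hh Z hZ hc hd.1
  · rw [Finset.not_subset] at hc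
    obtain ⟨z, hz, hzA⟩ := hc
    exact Finset.disjoint_left.mp hd.2 hz (Finset.mem_sdiff.mpr ⟨hZA hz, hzA⟩)

theorem exists_of_hit_pos {𝓖 : Finset Y → Prop} {A : Finset Y} (h : 0 < hit 𝓖 A) :
    ∃ Z, 𝓖 Z ∧ Z ⊆ A := by
  by_contra hcon
  push Not at hcon
  have : hit 𝓖 A ≤ (∅ : Finset Y).card := hit_le (fun Z hZ hZA => absurd hZA (hcon Z hZ))
  simp at this
  omega

theorem hit_sum {c : ℕ} {𝓖 : Finset Y → Prop} {𝓖i : Fin c → Finset Y → Prop}
    (h𝓖 : ∀ i Z, 𝓖i i Z → Z.Nonempty) (h : ∀ Z, 𝓖 Z → ∃ i, 𝓖i i Z) (A : Finset Y) :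
    hit 𝓖 A ≤ ∑ i, hit (𝓖i i) A := by
  choose R hR hh using fun i => hit_exists (h𝓖 i) A
  calc hit 𝓖 A ≤ (univ.biUnion R).card := by
        apply hit_le
        intro Z hZ hZA hd
        obtain ⟨i, hi⟩ := h Z hZ
        rw [Finset.disjoint_biUnion_right] at hd
        exact hh i Z hi hZA (hd i (mem_univ i))
    _ ≤ ∑ i, (R i).card := Finset.card_biUnion_le
    _ = ∑ i, hit (𝓖i i) A := Finset.sum_congr rfl fun i _ => hR i

theorem hit_card {A : Finset Y} {κ : ℕ} (hκ : 1 ≤ κ) :
    A.card + 1 ≤ hit (fun Z : Finset Y => Z.card = κ) A + κ := by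
  obtain ⟨R, hR, hh⟩ := hit_exists (𝓖 := fun Z : Finset Y => Z.card = κ)
    (fun Z hZ => Finset.card_pos.mp (by omega)) A
  rw [← hR]
  by_contra hcon
  have h1 : κ ≤ (A \ R).card := by
    have := Finset.le_card_sdiff R A
    omega
  obtain ⟨Z, hZ, hZc⟩ := Finset.exists_subset_card_eq h1
  exact hh Z hZc (hZ.trans Finset.sdiff_subset)
    (Finset.disjoint_of_subset_left hZ Finset.sdiff_disjoint)

end Hit

end Pool.Agent.Q119.KR
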