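import Pool.Agent.Q119.KR.Typ

/-!
# Kneser graphs are edge Ramsey: ladders of typical coarsenings
-/

set_option autoImplicit false

open Finset

namespace Pool.Agent.Q119.KR

section Defs

variable {X : Type}

/-- Sets that are unions of classes of a labelling. -/
def Meas (f : X → ℕ) (A : Finset X) : Prop := ∀ x y, f x = f y → x ∈ A → y ∈ A

/-- Sets of size `κ` whose colours to given sets are prescribed. -/
def pat {c : ℕ} (χ : Finset X → Finset X → Fin c) (κ : ℕ) (q : Finset (Finset X × Fin c))
    (Z : Finset X) : Prop :=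
  Z.card = κ ∧ ∀ e ∈ q, χ e.1 Z = e.2

/-- A measurable set that meets every measurable member of `𝓖` inside `A`. -/
def HitsM (f : X → ℕ) (𝓖 : Finset X → Prop) (A R : Finset X) : Prop :=
  Meas f R ∧ ∀ Z, Meas f Z → 𝓖 Z → Z ⊆ A → ¬ Disjoint Z R

/-- The least size of such a set. -/
noncomputable def hitM (f : X → ℕ) (𝓖 : Finset X → Prop) (A : Finset X) : ℕ :=
  sInf {r | ∃ R : Finset X, R.card = r ∧ HitsM f 𝓖 A R}

/-- A ladder of typical coarsenings. -/
structure Ladder {c : ℕ} (χ : Finset X → Finset X → Fin c) (κ B A M : ℕ)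
    (lev : ℕ → X → ℕ) : Prop where
  finer : ∀ l < M, ∀ x y, lev (l + 1) x = lev (l + 1) y → lev l x = lev l y
  sub : ∀ l ≤ M, ∀ G : Finset X, Meas (lev l) G → κ ≤ G.card →
    ∃ Z, Z ⊆ G ∧ Meas (lev l) Z ∧ Z.card = κ
  typ : ∀ l < M, ∀ (q : Finset (Finset X × Fin c)) (G G' : Finset X),
    (∀ e ∈ q, Meas (lev l) e.1) → Meas (lev l) G → Meas (lev l) G' → G.card = G'.card →
    (∀ e ∈ q, Disjoint e.1 G ∧ Disjoint e.1 G') →
    B ≤ A * hitM (lev (l + 1)) (pat χ κ q) G' →
    ∃ Z, Meas (lev (l + 1)) Z ∧ pat χ κ q Z ∧ Z ⊆ G

end Defs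

section Lemmas

variable {X Y : Type} [Fintype X] [DecidableEq X] [DecidableEq Y]

omit [DecidableEq X] in
theorem card_pre {φ : X → Y} {m : ℕ} (h : ∀ y, (univ.filter fun x => φ x = y).card = m)
    (A : Finset Y) : (pre φ A).card = m * A.card := by
  rw [Finset.card_eq_sum_card_fiberwise (f := φ) (t := A) (fun x hx => mem_pre.mp hx)]
  have : ∀ y ∈ A, ((pre φ A).filter fun x => φ x = y).card = m := by
    intro y hy
    rw [← h y]
    congr 1
    ext x
    simp only [Finset.mem_filter, mem_pre, Finset.mem_univ, true_and]
    constructor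
    · exact fun h => h.2
    · intro h
      exact ⟨by rw [h]; exact hy, h⟩
  rw [Finset.sum_congr rfl this, Finset.sum_const, smul_eq_mul, mul_comm]

omit [DecidableEq X] in
theorem surj_of_fiber {φ : X → Y} {m : ℕ} (hm : 1 ≤ m)
    (h : ∀ y, (univ.filter fun x => φ x = y).card = m) : Function.Surjective φ := by
  intro y
  have : 0 < (univ.filter fun x => φ x = y).card := by rw [h y]; exact hm
  obtain ⟨x, hx⟩ := Finset.card_pos.mp this
  exact ⟨x, (Finset.mem_filter.mp hx).2⟩

theorem image_pre {φ : X → Y} (hφ : Function.Surjective φ) (A : Finset Y) :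
    (pre φ A).image φ = A := by
  ext y
  rw [Finset.mem_image]
  constructor
  · rintro ⟨x, hx, rfl⟩
    exact mem_pre.mp hx
  · intro hy
    obtain ⟨x, rfl⟩ := hφ y
    exact ⟨x, mem_pre.mpr hy, rfl⟩

theorem pre_image {f : X → ℕ} {π : X → Y} (h : ∀ x y, f x = f y ↔ π x = π y) {A : Finset X}
    (hA : Meas f A) : pre π (A.image π) = A := by
  ext x
  rw [mem_pre, Finset.mem_image]
  constructor
  · rintro ⟨y, hy, hyx⟩
    exact hA y x ((h y x).mpr hyx) hy
  · intro hx
    exact ⟨x, hx, rfl⟩

omit [DecidableEq X] in
theorem meas_pre {f : X → ℕ} {π : X → Y} (h : ∀ x y, f x = f y ↔ π x = π y) (A : Finset Y) :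
    Meas f (pre π A) := by
  intro x y hxy hx
  rw [mem_pre] at hx ⊢
  rw [← (h x y).mp hxy]
  exact hx

theorem disj_image {f : X → ℕ} {π : X → Y} (h : ∀ x y, f x = f y ↔ π x = π y) {A B : Finset X}
    (hB : Meas f B) (hd : Disjoint A B) : Disjoint (A.image π) (B.image π) := by
  rw [Finset.disjoint_left]
  intro y hy hy'
  rw [Finset.mem_image] at hy hy'
  obtain ⟨x, hx, rfl⟩ := hy
  obtain ⟨x', hx', he⟩ := hy'
  exact Finset.disjoint_left.mp hd hx (hB x' x ((h x' x).mpr he) hx')

end Lemmas

/-- Ladders exist. -/
theorem exists_ladder (c A : ℕ) : ∀ (M N K : ℕ), 1 ≤ K → ∃ b : ℕ, 1 ≤ b ∧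
    ∀ (X : Type) [Fintype X] [DecidableEq X], Fintype.card X = N * b →
    ∀ χ : Finset X → Finset X → Fin c,
    ∃ π : X → Fin N, (∀ i, (univ.filter fun x => π x = i).card = b) ∧
      ∃ lev : ℕ → X → ℕ, (∀ x y, lev 0 x = lev 0 y ↔ π x = π y) ∧
        Ladder χ (K * b) b A M lev := by
  intro M
  induction M with
  | zero =>
    intro N K hK
    refine ⟨1, le_rfl, fun X _ _ hX χ => ?_⟩
    have e : X ≃ Fin N := Fintype.equivFinOfCardEq (by rw [hX, mul_one])
    refine ⟨e, ?_, fun _ x => (e x : ℕ), ?_, ?_⟩
    · intro i
      rw [Finset.card_eq_one]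
      refine ⟨e.symm i, ?_⟩
      ext x
      simp only [Finset.mem_filter, Finset.mem_univ, true_and, Finset.mem_singleton]
      exact ⟨fun h => by rw [← h, Equiv.symm_apply_apply], fun h => by rw [h, Equiv.apply_symm_apply]⟩
    · intro x y
      exact ⟨fun h => Fin.ext h, fun h => by simp only [h]⟩
    · refine ⟨fun l hl => absurd hl (Nat.not_lt_zero l), ?_, fun l hl => absurd hl (Nat.not_lt_zero l)⟩
      intro l _ G _ hG
      obtain ⟨Z, hZ, hc⟩ := Finset.exists_subset_card_eq hG
      refine ⟨Z, hZ, ?_, hc⟩
      intro x y hxy hx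
      have : x = y := e.injective (Fin.ext hxy)
      rwa [← this]
  | succ M ih =>
    intro N K hK
    obtain ⟨b₀, hb₀⟩ := typ N c A
    set b₁ := max b₀ 1 with hb₁
    have hb₁1 : 1 ≤ b₁ := le_max_right _ _
    obtain ⟨b', hb'1, hih⟩ := ih (N * b₁) (K * b₁) (Nat.mul_pos hK hb₁1)
    refine ⟨b₁ * b', Nat.mul_pos hb₁1 hb'1, fun X _ _ hX χ => ?_⟩
    obtain ⟨π', hπ', lev', hlev', hL⟩ := hih X (by rw [hX, mul_assoc]) χ
    set e : Fin (N * b₁) ≃ Fin N × Fin b₁ := finProdFinEquiv.symm with he
    set ψ : X → Fin N × Fin b₁ := fun x => e (π' x) with hψ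
    have hψf : ∀ y, (univ.filter fun x => ψ x = y).card = b' := by
      intro y
      rw [← hπ' (e.symm y)]
      congr 1
      ext x
      simp only [Finset.mem_filter, Finset.mem_univ, true_and, hψ]
      constructor
      · intro h; rw [← h, Equiv.symm_apply_apply]
      · intro h; rw [h, Equiv.apply_symm_apply]
    have hψs : Function.Surjective ψ := surj_of_fiber hb'1 hψf
    have hlψ : ∀ x y, lev' 0 x = lev' 0 y ↔ ψ x = ψ y := by
      intro x y
      rw [hlev' x y]
      exact ⟨fun h => by simp only [hψ, h], fun h => e.injective h⟩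
    obtain ⟨g, hg, htyp⟩ := hb₀ b₁ (le_max_left _ _)
      (fun Z => Z.card = K * b₁) (fun Z hZ => Finset.card_pos.mp (by
        rw [hZ]; exact Nat.mul_pos hK hb₁1)) (fun S T => χ (pre ψ S) (pre ψ T))
    have hgs : Function.Surjective g := surj_of_fiber hb₁1 hg
    set π : X → Fin N := fun x => g (ψ x) with hπ
    have hpre : ∀ S : Finset (Fin N), pre π S = pre ψ (pre g S) := by
      intro S
      ext x
      rw [mem_pre, mem_pre, mem_pre]
    have hπf : ∀ i, (univ.filter fun x => π x = i).card = b₁ * b' := by
      intro i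
      have h1 := card_pre hψf (univ.filter fun y => g y = i)
      rw [hg i] at h1
      rw [mul_comm, ← h1]
      congr 1
      ext x
      simp [mem_pre, hπ]
    have hπs : Function.Surjective π := hgs.comp hψs
    refine ⟨π, hπf, fun l => match l with
      | 0 => fun x => (π x : ℕ)
      | l + 1 => lev' l, ?_, ?_⟩
    · intro x y
      exact ⟨fun h => Fin.ext h, fun h => by simp only [h]⟩
    · have h0 : ∀ x y : X, ((π x : ℕ) = (π y : ℕ)) ↔ π x = π y :=
        fun x y => ⟨fun h => Fin.ext h, fun h => by rw [h]⟩
      have hκ : K * (b₁ * b') = K * b₁ * b' := (mul_assoc _ _ _).symm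
      refine ⟨?_, ?_, ?_⟩
      · intro l hl
        cases l with
        | zero =>
          intro x y hxy
          have h1 : lev' 0 x = lev' 0 y := hxy
          have h2 := (hlψ x y).mp h1
          show (π x : ℕ) = (π y : ℕ)
          simp only [hπ, h2]
        | succ l =>
          intro x y hxy
          exact hL.finer l (by omega) x y hxy
      · intro l hl
        cases l with
        | zero =>
          intro G hG hGc
          have hG' : Meas (fun x => (π x : ℕ)) G := hG
          have h1 := pre_image h0 hG'
          have h2 := card_pre hπf (G.image π)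
          rw [h1] at h2
          rw [h2, mul_comm K] at hGc
          have h3 : K ≤ (G.image π).card :=
            Nat.le_of_mul_le_mul_left hGc (Nat.mul_pos hb₁1 hb'1)
          obtain ⟨Z₀, hZ₀, hZc⟩ := Finset.exists_subset_card_eq h3
          refine ⟨pre π Z₀, ?_, meas_pre h0 Z₀, ?_⟩
          · rw [← h1]
            intro x hx
            rw [mem_pre] at hx ⊢
            exact hZ₀ hx
          · rw [card_pre hπf, hZc, mul_comm]
        | succ l =>
          intro G hG hGc
          rw [hκ] at hGc ⊢
          exact hL.sub l (by omega) G hG hGc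
      · intro l hl
        cases l with
        | succ l =>
          intro q G G' hq hG hG' hc hd hA
          rw [hκ] at hA ⊢
          exact hL.typ l (by omega) q G G' hq hG hG' hc hd
            (le_trans (Nat.le_mul_of_pos_left b' hb₁1) hA)
        | zero =>
          intro q G G' hq hG hG' hc hd hA
          have hG0 : Meas (fun x => (π x : ℕ)) G := hG
          have hG0' : Meas (fun x => (π x : ℕ)) G' := hG'
          have hq0 : ∀ e ∈ q, Meas (fun x => (π x : ℕ)) e.1 := hq
          have eG := pre_image h0 hG0
          have eG' := pre_image h0 hG0'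
          set q₀ : Finset (Finset (Fin N) × Fin c) := q.image fun e => (e.1.image π, e.2) with hq₀
          have hfam : ∀ Z₀ : Finset (Fin N × Fin b₁),
              fam (fun Z => Z.card = K * b₁) (fun S T => χ (pre ψ S) (pre ψ T)) g q₀ Z₀ ↔
                pat χ (K * (b₁ * b')) q (pre ψ Z₀) := by
            intro Z₀
            unfold fam pat
            rw [card_pre hψf]
            apply and_congr
            · constructor
              · intro h
                rw [h]; ring
              · intro h
                have : b' * Z₀.card = b' * (K * b₁) := by rw [h]; ring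
                exact Nat.eq_of_mul_eq_mul_left hb'1 this
            · constructor
              · intro h e he
                have h1 := h (e.1.image π, e.2) (Finset.mem_image_of_mem _ he)
                simp only at h1
                rw [← hpre, pre_image h0 (hq0 e he)] at h1
                exact h1
              · intro h e he
                rw [hq₀, Finset.mem_image] at he
                obtain ⟨e', he', rfl⟩ := he
                simp only
                rw [← hpre, pre_image h0 (hq0 e' he')]
                exact h e' he'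
          have hhit : hitM (lev' 0) (pat χ (K * (b₁ * b')) q) G' ≤
              b' * hit (fam (fun Z => Z.card = K * b₁)
                (fun S T => χ (pre ψ S) (pre ψ T)) g q₀) (pre g (G'.image π)) := by
            obtain ⟨R, hR, hRh⟩ := hit_exists (𝓖 := fam (fun Z => Z.card = K * b₁)
                (fun S T => χ (pre ψ S) (pre ψ T)) g q₀)
                (fun Z hZ => Finset.card_pos.mp (by
                  rw [hZ.1]; exact Nat.mul_pos hK hb₁1)) (pre g (G'.image π))
            rw [← hR, ← card_pre hψf]
            refine Nat.sInf_le ⟨pre ψ R, rfl, meas_pre hlψ R, ?_⟩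
            intro Z hZ hp hZG hdis
            have eZ := pre_image hlψ hZ
            have h1 : fam (fun Z => Z.card = K * b₁)
                (fun S T => χ (pre ψ S) (pre ψ T)) g q₀ (Z.image ψ) := by
              rw [hfam, eZ]; exact hp
            refine hRh _ h1 ?_ ?_
            · intro y hy
              rw [Finset.mem_image] at hy
              obtain ⟨x, hx, rfl⟩ := hy
              rw [mem_pre, Finset.mem_image]
              exact ⟨x, hZG hx, rfl⟩
            · rw [Finset.disjoint_left] at hdis ⊢
              intro y hy hyR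
              rw [Finset.mem_image] at hy
              obtain ⟨x, hx, rfl⟩ := hy
              exact hdis hx (mem_pre.mpr hyR)
          have hA' : b₁ ≤ A * hit (fam (fun Z => Z.card = K * b₁)
                (fun S T => χ (pre ψ S) (pre ψ T)) g q₀) (pre g (G'.image π)) := by
            have h1 : b₁ * b' ≤ A * hitM (lev' 0) (pat χ (K * (b₁ * b')) q) G' := hA
            have h2 := h1.trans (Nat.mul_le_mul_left A hhit)
            have h3 : b₁ * b' ≤ (A * hit (fam (fun Z => Z.card = K * b₁)
                (fun S T => χ (pre ψ S) (pre ψ T)) g q₀) (pre g (G'.image π))) * b' := by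
              calc _ ≤ _ := h2
                _ = _ := by ring
            exact Nat.le_of_mul_le_mul_right h3 hb'1
          have hcc : (G.image π).card = (G'.image π).card := by
            have h1 := card_pre hπf (G.image π)
            have h2 := card_pre hπf (G'.image π)
            rw [eG] at h1
            rw [eG'] at h2
            rw [h1, h2] at hc
            exact Nat.eq_of_mul_eq_mul_left (Nat.mul_pos hb₁1 hb'1) hc
          obtain ⟨Z₀, hZ₀, hsub⟩ := htyp q₀ (G.image π) (G'.image π) hcc (by
            intro e he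
            rw [hq₀, Finset.mem_image] at he
            obtain ⟨e', he', rfl⟩ := he
            exact ⟨disj_image h0 hG0 (hd e' he').1, disj_image h0 hG0' (hd e' he').2⟩) hA'
          refine ⟨pre ψ Z₀, meas_pre hlψ Z₀, (hfam Z₀).mp hZ₀, ?_⟩
          rw [← eG, hpre]
          intro x hx
          rw [mem_pre] at hx ⊢
          exact hsub hx

end Pool.Agent.Q119.KR
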