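import Pool.Agent.Q119.KR.Process

/-!
# Kneser graphs are edge Ramsey: the finite theorem
-/

set_option autoImplicit false

open Finset

namespace Pool.Agent.Q119.KR

/-- Vertex colourings: disjoint sets of the same colour. -/
theorem vr (r c a : ℕ) (hr : 1 ≤ r) (hc : 1 ≤ c) : ∃ b₀ : ℕ, ∀ b ≥ b₀, ∀ κ : ℕ, 1 ≤ κ →
    b ≤ a * (b + 1 - κ) → ∀ f : Finset (Fin r × Fin b) → Fin c,
    ∃ (i : Fin c) (Z : Fin r → Finset (Fin r × Fin b)),
      (∀ u, (Z u).card = κ ∧ f (Z u) = i) ∧ ∀ u v, u ≠ v → Disjoint (Z u) (Z v) := by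
  obtain ⟨b₀, hb₀⟩ := typ r c (c * a)
  refine ⟨b₀, fun b hb κ hκ hbκ f => ?_⟩
  obtain ⟨g, hg, htyp⟩ := hb₀ b hb (fun Z => Z.card = κ)
    (fun Z hZ => Finset.card_pos.mp (by rw [hZ]; exact hκ)) (fun _ Z => f Z)
  set q : Fin c → Finset (Finset (Fin r) × Fin c) := fun i => {(∅, i)} with hq
  have hfam : ∀ i Z, fam (fun Z => Z.card = κ) (fun _ Z => f Z) g (q i) Z ↔
      Z.card = κ ∧ f Z = i := by
    intro i Z
    simp [fam, hq]
  set u₀ : Fin r := ⟨0, hr⟩ with hu₀
  have hcard : (pre g {u₀}).card = b := by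
    rw [card_pre hg, Finset.card_singleton, mul_one]
  have h1 := hit_card (A := pre g {u₀}) hκ
  rw [hcard] at h1
  have h2 := hit_sum (c := c) (𝓖 := fun Z : Finset (Fin r × Fin b) => Z.card = κ)
    (𝓖i := fun i => fam (fun Z => Z.card = κ) (fun _ Z => f Z) g (q i))
    (fun i Z hZ => Finset.card_pos.mp (by rw [hZ.1]; exact hκ))
    (fun Z hZ => ⟨f Z, (hfam _ Z).mpr ⟨hZ, rfl⟩⟩) (pre g {u₀})
  obtain ⟨i, hi⟩ : ∃ i, b + 1 - κ ≤ c * hit (fam (fun Z => Z.card = κ) (fun _ Z => f Z) g (q i))
      (pre g {u₀}) := by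
    by_contra hcon
    push Not at hcon
    have hlt : ∑ i : Fin c, c * hit (fam (fun Z => Z.card = κ) (fun _ Z => f Z) g (q i))
        (pre g {u₀}) < c * (b + 1 - κ) := by
      calc _ < ∑ _i : Fin c, (b + 1 - κ) := by
            apply Finset.sum_lt_sum_of_nonempty ⟨⟨0, hc⟩, mem_univ _⟩
            intro i _
            exact hcon i
        _ = c * (b + 1 - κ) := by simp
    rw [← Finset.mul_sum] at hlt
    have h3 : b + 1 - κ ≤ ∑ i : Fin c, hit (fam (fun Z => Z.card = κ) (fun _ Z => f Z) g (q i))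
        (pre g {u₀}) := by omega
    have h4 := Nat.mul_le_mul_left c h3
    omega
  have h5 : b ≤ c * a * hit (fam (fun Z => Z.card = κ) (fun _ Z => f Z) g (q i))
      (pre g {u₀}) := by
    calc b ≤ a * (b + 1 - κ) := hbκ
      _ ≤ a * (c * hit (fam (fun Z => Z.card = κ) (fun _ Z => f Z) g (q i))
          (pre g {u₀})) := Nat.mul_le_mul_left a hi
      _ = _ := by ring
  have h6 : ∀ u : Fin r, ∃ Z, fam (fun Z => Z.card = κ) (fun _ Z => f Z) g (q i) Z ∧
      Z ⊆ pre g {u} := by
    intro u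
    refine htyp (q i) {u} {u₀} (by simp) ?_ h5
    intro e he
    rw [hq, Finset.mem_singleton] at he
    subst he
    simp
  choose Z hZ hZs using h6
  refine ⟨i, Z, fun u => (hfam i (Z u)).mp (hZ u), fun u v huv => ?_⟩
  rw [Finset.disjoint_left]
  intro y hy hy'
  have e1 := mem_pre.mp (hZs u hy)
  have e2 := mem_pre.mp (hZs v hy')
  rw [Finset.mem_singleton] at e1 e2
  exact huv (by rw [← e1, ← e2])

/-- The finite theorem. -/
theorem main_finite (c r : ℕ) (hc : 1 ≤ c) (hr : 1 ≤ r) (α : ℚ) (hα : (r : ℚ) + 1 < α) :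
    ∃ N K : ℕ, 1 ≤ K ∧ (N : ℚ) < α * K ∧
      ∀ (X : Type) [Fintype X] [DecidableEq X], Fintype.card X = N →
      ∀ χ : Finset X → Finset X → Fin c,
      ∃ (i : Fin c) (C : Fin (r + 1) → Finset X), (∀ u, (C u).card = K) ∧
        ∀ u v, u < v → Disjoint (C u) (C v) ∧ χ (C u) (C v) = i := by
  classical
  obtain ⟨a₀, ha₀⟩ := exists_nat_gt (((r : ℚ) + 1) / (α - (r + 1)))
  have hδ : (0 : ℚ) < α - (r + 1) := by linarith
  rw [div_lt_iff₀ hδ] at ha₀
  have hrq : (0 : ℚ) ≤ r := by positivity
  have ha₀1 : 1 ≤ a₀ := by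
    by_contra hcon
    have : a₀ = 0 := by omega
    rw [this] at ha₀
    simp at ha₀
    linarith
  obtain ⟨b₀, hvr⟩ := vr r c (a₀ + 1) hr hc
  set t : ℕ := max b₀ 1 with ht
  have ht1 : 1 ≤ t := le_max_right _ _
  set bV : ℕ := (a₀ + 1) * t with hbV
  set S : ℕ := a₀ * t + 1 with hS
  have hbVb : bV ≥ b₀ := by
    calc b₀ ≤ t := le_max_left _ _
      _ = 1 * t := (one_mul t).symm
      _ ≤ (a₀ + 1) * t := Nat.mul_le_mul_right t (by omega)
  have hbVS : bV ≤ (a₀ + 1) * (bV + 1 - S) := by
    have : bV + 1 - S = t := by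
      rw [hbV, hS, add_mul]
      omega
    rw [this]
  have hvrS := hvr bV hbVb S (by omega) hbVS
  set K₁ : ℕ := a₀ * t with hK₁
  have hK₁1 : 1 ≤ K₁ := Nat.mul_pos ha₀1 ht1
  set N₁ : ℕ := r * bV + S with hN₁
  -- positions
  let V := Fin r × Fin bV
  let Pos := {s : Finset V // s.card = S}
  let P : ℕ := Fintype.card Pos
  have hPpos : 0 < P := by
    apply Fintype.card_pos_iff.mpr
    have h1 : S ≤ (univ : Finset V).card := by
      rw [Finset.card_univ, Fintype.card_prod, Fintype.card_fin, Fintype.card_fin, hS, hbV]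
      have h2 : a₀ * t + 1 ≤ 1 * ((a₀ + 1) * t) := by
        rw [one_mul, add_mul, one_mul]
        omega
      exact h2.trans (Nat.mul_le_mul_right _ hr)
    obtain ⟨s, _, hs⟩ := Finset.exists_subset_card_eq h1
    exact ⟨⟨s, hs⟩⟩
  let eP : Pos ≃ Fin P := Fintype.equivFin Pos
  set T : ℕ := Fintype.card (Pos → Fin c) * (r - 1) + 1 with hT
  set J : ℕ := T * P with hJ
  obtain ⟨b, hb1, hlad⟩ := exists_ladder c (c ^ J) (need c J) N₁ K₁ hK₁1
  refine ⟨N₁ * b, K₁ * b, Nat.mul_pos hK₁1 hb1, ?_, ?_⟩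
  · have hbq : (0 : ℚ) < b := by exact_mod_cast hb1
    have htq : (1 : ℚ) ≤ t := by exact_mod_cast ht1
    have h1 : (N₁ : ℚ) < α * K₁ := by
      have e1 : (N₁ : ℚ) = (r + 1) * (a₀ * t) + (r * t + 1) := by
        rw [hN₁, hbV, hS, hK₁]; push_cast; ring
      have e2 : (K₁ : ℚ) = a₀ * t := by rw [hK₁]; push_cast; ring
      rw [e1, e2]
      have h2 : ((r : ℚ) + 1) * t < (a₀ * (α - (r + 1))) * t :=
        mul_lt_mul_of_pos_right ha₀ (by linarith)
      nlinarith
    push_cast
    calc (N₁ : ℚ) * b < (α * K₁) * b := mul_lt_mul_of_pos_right h1 hbq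
      _ = _ := by ring
  · intro X _ _ hX χ
    obtain ⟨π, hπ, lev, hlev, hL⟩ := hlad X hX χ
    have hcardb : Fintype.card (V ⊕ Fin S) = N₁ := by
      rw [Fintype.card_sum, Fintype.card_prod, Fintype.card_fin, Fintype.card_fin,
        Fintype.card_fin]
    let eb : Fin N₁ ≃ V ⊕ Fin S := (Fintype.equivFinOfCardEq hcardb).symm
    let πb : X → V ⊕ Fin S := fun x => eb (π x)
    have hπb : ∀ y, (univ.filter fun x => πb x = y).card = b := by
      intro y
      rw [← hπ (eb.symm y)]
      congr 1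
      ext x
      simp only [Finset.mem_filter, Finset.mem_univ, true_and, πb]
      constructor
      · intro h; rw [← h, Equiv.symm_apply_apply]
      · intro h; rw [h, Equiv.apply_symm_apply]
    have hlb : ∀ x y, lev 0 x = lev 0 y ↔ πb x = πb y := by
      intro x y
      rw [hlev x y]
      exact ⟨fun h => by simp only [πb, h], fun h => eb.injective h⟩
    let reg : Finset V → Finset X := fun s => pre πb (s.map Function.Embedding.inl)
    let P' : Finset X := pre πb ((univ : Finset (Fin S)).map Function.Embedding.inr)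
    have hregc : ∀ s, (reg s).card = b * s.card := fun s => by
      rw [card_pre hπb, Finset.card_map]
    have hP'c : P'.card = b * S := by
      rw [card_pre hπb, Finset.card_map, Finset.card_univ, Fintype.card_fin]
    have hregd : ∀ s, Disjoint (reg s) P' := by
      intro s
      rw [Finset.disjoint_left]
      intro x hx hx'
      rw [mem_pre, Finset.mem_map] at hx hx'
      obtain ⟨v, _, hv⟩ := hx
      obtain ⟨w, _, hw⟩ := hx'
      rw [← hv] at hw
      exact absurd hw (by simp)
    have hregdd : ∀ s s', Disjoint s s' → Disjoint (reg s) (reg s') := by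
      intro s s' hd
      rw [Finset.disjoint_left]
      intro x hx hx'
      rw [mem_pre, Finset.mem_map] at hx hx'
      obtain ⟨v, hv, hv'⟩ := hx
      obtain ⟨w, hw, hw'⟩ := hx'
      rw [← hv'] at hw'
      have : w = v := by simpa using hw'
      subst this
      exact Finset.disjoint_left.mp hd hv hw
    let xs : ℕ → Finset X := fun j => reg (eP.symm ⟨j % P, Nat.mod_lt j hPpos⟩).1
    obtain ⟨E, q, Z, hE, hcol, hZs, hZc, hZcol⟩ := process hc hL (Nat.mul_pos hK₁1 hb1) hb1
      (P' := P') (meas_pre hlb _) (by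
        rw [hP'c, hS]
        have : b * (K₁ + 1) = K₁ * b + b := by ring
        omega) J xs (fun j _ => meas_pre hlb _) (fun j _ => by
        rw [hregc, hP'c, (eP.symm ⟨j % P, Nat.mod_lt j hPpos⟩).2])
      (fun j _ => hregd _) le_rfl le_rfl
    -- layers with the same colouring of the positions
    let F : ℕ → Pos → Fin c := fun s p => q (s * P + (eP p : ℕ))
    obtain ⟨f, _, hf⟩ := Finset.exists_lt_card_fiber_of_mul_lt_card_of_maps_to
      (s := Finset.range T) (t := (univ : Finset (Pos → Fin c))) (f := F) (n := r - 1)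
      (fun _ _ => mem_univ _) (by
        rw [Finset.card_univ, Finset.card_range, hT]
        omega)
    obtain ⟨W, hW, hWc⟩ := Finset.exists_subset_card_eq
      (show r ≤ ((Finset.range T).filter fun s => F s = f).card by omega)
    let τ : Fin r ↪o ℕ := W.orderEmbOfFin hWc
    have hτ : ∀ u, τ u < T ∧ F (τ u) = f := by
      intro u
      have h1 := hW (W.orderEmbOfFin_mem hWc u)
      rw [Finset.mem_filter, Finset.mem_range] at h1
      exact h1
    obtain ⟨i, Zv, hZv, hZvd⟩ := hvrS (fun s => if h : s.card = S then f ⟨s, h⟩ else ⟨0, hc⟩)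
    let pp : Fin r → Pos := fun u => ⟨Zv u, (hZv u).1⟩
    have hppf : ∀ u, f (pp u) = i := by
      intro u
      have h1 := (hZv u).2
      simp only [(hZv u).1, dite_true] at h1
      exact h1
    let jj : Fin r → ℕ := fun u => τ u * P + (eP (pp u) : ℕ)
    have hjJ : ∀ u, jj u < J := by
      intro u
      have h1 := (hτ u).1
      have h2 := (eP (pp u)).2
      calc τ u * P + (eP (pp u) : ℕ) < τ u * P + P := by omega
        _ = (τ u + 1) * P := by ring
        _ ≤ T * P := Nat.mul_le_mul_right P h1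
    have hxj : ∀ u, xs (jj u) = reg (Zv u) := by
      intro u
      have h1 : jj u % P = (eP (pp u) : ℕ) := by
        show (τ u * P + (eP (pp u) : ℕ)) % P = _
        rw [mul_comm, Nat.mul_add_mod, Nat.mod_eq_of_lt (eP (pp u)).2]
      have h2 : (⟨jj u % P, Nat.mod_lt (jj u) hPpos⟩ : Fin P) = eP (pp u) := Fin.ext h1
      show reg (eP.symm ⟨jj u % P, Nat.mod_lt (jj u) hPpos⟩).1 = _
      rw [h2, Equiv.symm_apply_apply]
    have hqi : ∀ u, q (jj u) = i := by
      intro u
      have h1 := congrFun (hτ u).2 (pp u)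
      rw [hppf u] at h1
      exact h1
    have hjlt : ∀ u v, u < v → jj u < jj v := by
      intro u v huv
      have h1 : τ u < τ v := τ.strictMono huv
      have h2 := (eP (pp u)).2
      calc τ u * P + (eP (pp u) : ℕ) < τ u * P + P := by omega
        _ = (τ u + 1) * P := by ring
        _ ≤ τ v * P := Nat.mul_le_mul_right P h1
        _ ≤ _ := Nat.le_add_right _ _
    have hEr : ∀ u, E (jj u) ⊆ reg (Zv u) := fun u => by
      rw [← hxj u]
      exact (hE _ (hjJ u)).1
    refine ⟨i, Fin.snoc (fun u => E (jj u)) Z, ?_, ?_⟩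
    · intro u
      refine Fin.lastCases ?_ (fun u => ?_) u
      · rw [Fin.snoc_last]; exact hZc
      · rw [Fin.snoc_castSucc]; exact (hE _ (hjJ u)).2
    · intro u v
      refine Fin.lastCases ?_ (fun v => ?_) v
      · refine Fin.lastCases ?_ (fun u => ?_) u
        · intro h; exact absurd h (lt_irrefl _)
        · intro _
          rw [Fin.snoc_last, Fin.snoc_castSucc]
          refine ⟨?_, ?_⟩
          · exact Finset.disjoint_of_subset_left (hEr u)
              (Finset.disjoint_of_subset_right hZs (hregd _))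
          · rw [hZcol _ (hjJ u), hqi]
      · refine Fin.lastCases ?_ (fun u => ?_) u
        · intro h
          exact absurd (Fin.castSucc_lt_last v) (not_lt.mpr h.le)
        · intro h
          have huv : u < v := Fin.castSucc_lt_castSucc_iff.mp h
          rw [Fin.snoc_castSucc, Fin.snoc_castSucc]
          have hd : Disjoint (Zv u) (Zv v) := hZvd u v (ne_of_lt huv)
          refine ⟨?_, ?_⟩
          · exact Finset.disjoint_of_subset_left (hEr u)
              (Finset.disjoint_of_subset_right (hEr v) (hregdd _ _ hd))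
          · rw [hcol (jj u) (jj v) (hjlt u v huv) (hjJ v) (by
              rw [hxj u, hxj v]; exact hregdd _ _ hd), hqi]

end Pool.Agent.Q119.KR
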