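import Pool.Agent.Q119.KR.Ladder

/-!
# Kneser graphs are edge Ramsey: end-homogeneous sequences
-/

set_option autoImplicit false

open Finset

namespace Pool.Agent.Q119.KR

section

variable {X : Type} [Fintype X] [DecidableEq X]

omit [Fintype X] [DecidableEq X] in
theorem hitM_le {f : X → ℕ} {𝓖 : Finset X → Prop} {A R : Finset X} (h : HitsM f 𝓖 A R) :
    hitM f 𝓖 A ≤ R.card :=
  Nat.sInf_le ⟨R, rfl, h⟩

omit [Fintype X] [DecidableEq X] in
theorem hitM_exists {f : X → ℕ} {𝓖 : Finset X → Prop} (h𝓖 : ∀ Z, 𝓖 Z → Z.Nonempty)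
    {A : Finset X} (hA : Meas f A) :
    ∃ R : Finset X, R.card = hitM f 𝓖 A ∧ HitsM f 𝓖 A R := by
  have hne : {r | ∃ R : Finset X, R.card = r ∧ HitsM f 𝓖 A R}.Nonempty := by
    refine ⟨A.card, A, rfl, hA, fun Z _ hZ hZA hd => ?_⟩
    obtain ⟨z, hz⟩ := h𝓖 Z hZ
    exact Finset.disjoint_left.mp hd hz (hZA hz)
  exact Nat.sInf_mem hne

omit [Fintype X] [DecidableEq X] in
theorem exists_of_hitM_pos {f : X → ℕ} {𝓖 : Finset X → Prop} {A : Finset X}
    (h : 0 < hitM f 𝓖 A) : ∃ Z, Meas f Z ∧ 𝓖 Z ∧ Z ⊆ A := by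
  by_contra hcon
  push Not at hcon
  have : hitM f 𝓖 A ≤ (∅ : Finset X).card :=
    hitM_le ⟨fun x y _ hx => absurd hx (Finset.notMem_empty x),
      fun Z hm hZ hZA => absurd hZA (hcon Z hm hZ)⟩
  simp at this
  omega

omit [Fintype X] [DecidableEq X] in
theorem hitM_mono {f : X → ℕ} {𝓖 𝓖' : Finset X → Prop} (h𝓖' : ∀ Z, 𝓖' Z → Z.Nonempty)
    (h : ∀ Z, 𝓖 Z → 𝓖' Z) {A : Finset X} (hA : Meas f A) : hitM f 𝓖 A ≤ hitM f 𝓖' A := by
  obtain ⟨R, hR, hm, hh⟩ := hitM_exists h𝓖' hA
  rw [← hR]
  exact hitM_le ⟨hm, fun Z hZ hg hs => hh Z hZ (h Z hg) hs⟩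

omit [Fintype X] in
theorem hitM_sum {c : ℕ} {f : X → ℕ} {𝓖 : Finset X → Prop} {𝓖i : Fin c → Finset X → Prop}
    (h𝓖 : ∀ i Z, 𝓖i i Z → Z.Nonempty) (h : ∀ Z, 𝓖 Z → ∃ i, 𝓖i i Z) {A : Finset X}
    (hA : Meas f A) :
    hitM f 𝓖 A ≤ ∑ i, hitM f (𝓖i i) A := by
  choose R hR hh using fun i => hitM_exists (h𝓖 i) hA
  calc hitM f 𝓖 A ≤ (univ.biUnion R).card := by
        refine hitM_le ⟨?_, ?_⟩
        · intro x y hxy hx
          rw [Finset.mem_biUnion] at hx ⊢
          obtain ⟨i, hi, hxi⟩ := hx
          exact ⟨i, hi, (hh i).1 x y hxy hxi⟩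
        · intro Z hm hZ hZA hd
          obtain ⟨i, hi⟩ := h Z hZ
          rw [Finset.disjoint_biUnion_right] at hd
          exact (hh i).2 Z hm hi hZA (hd i (mem_univ i))
    _ ≤ ∑ i, (R i).card := Finset.card_biUnion_le
    _ = ∑ i, hitM f (𝓖i i) A := Finset.sum_congr rfl fun i _ => hR i

omit [Fintype X] in
theorem meas_sdiff {f : X → ℕ} {A R : Finset X} (hA : Meas f A) (hR : Meas f R) :
    Meas f (A \ R) := by
  intro x y hxy hx
  rw [Finset.mem_sdiff] at hx ⊢
  exact ⟨hA x y hxy hx.1, fun h => hx.2 (hR y x hxy.symm h)⟩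

omit [Fintype X] [DecidableEq X] in
theorem meas_le {c : ℕ} {χ : Finset X → Finset X → Fin c} {κ B A M : ℕ} {lev : ℕ → X → ℕ}
    (hL : Ladder χ κ B A M lev) {S : Finset X} : ∀ (l' l : ℕ), l ≤ l' → l' ≤ M →
      Meas (lev l) S → Meas (lev l') S := by
  intro l'
  induction l' with
  | zero =>
    intro l hl _ hS
    have : l = 0 := by omega
    rwa [this] at hS
  | succ l' ih =>
    intro l hl hM hS
    rcases Nat.lt_or_ge l (l' + 1) with h | h
    · have h1 := ih l (by omega) (by omega) hS
      intro x y hxy hx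
      exact h1 x y (hL.finer l' (by omega) x y hxy) hx
    · have : l = l' + 1 := by omega
      rwa [this] at hS

/-- The number of levels needed. -/
def need (c : ℕ) : ℕ → ℕ
  | 0 => 1
  | s + 1 => c * need c s + 1

theorem need_pos (c s : ℕ) : 1 ≤ need c s := by
  cases s with
  | zero => exact le_rfl
  | succ s => unfold need; omega

/-- The set of the first `j` elements with their colours. -/
def hist {c : ℕ} (E : ℕ → Finset X) (q : ℕ → Fin c) (j : ℕ) : Finset (Finset X × Fin c) :=
  (range j).image fun i => (E i, q i)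

theorem process {c : ℕ} (hc : 1 ≤ c) {χ : Finset X → Finset X → Fin c} {κ B A M : ℕ}
    {lev : ℕ → X → ℕ} (hL : Ladder χ κ B A M lev) (hκ : 1 ≤ κ) (hB : 1 ≤ B)
    {P' : Finset X} (hP' : Meas (lev 0) P') (hsize : κ + B ≤ P'.card + 1)
    (J : ℕ) (x : ℕ → Finset X) (hx : ∀ j < J, Meas (lev 0) (x j))
    (hxc : ∀ j < J, (x j).card = P'.card) (hxd : ∀ j < J, Disjoint (x j) P')
    (hM : need c J ≤ M) (hA : c ^ J ≤ A) :
    ∃ (E : ℕ → Finset X) (q : ℕ → Fin c) (Z : Finset X),
      (∀ j < J, E j ⊆ x j ∧ (E j).card = κ) ∧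
      (∀ i j, i < j → j < J → Disjoint (x i) (x j) → χ (E i) (E j) = q i) ∧
      Z ⊆ P' ∧ Z.card = κ ∧ ∀ i < J, χ (E i) Z = q i := by
  classical
  have hne : ∀ (s : Finset (Finset X × Fin c)) (Z : Finset X), pat χ κ s Z → Z.Nonempty :=
    fun s Z hZ => Finset.card_pos.mp (by rw [hZ.1]; exact hκ)
  have main : ∀ j ≤ J, ∃ (E : ℕ → Finset X) (q : ℕ → Fin c) (l : ℕ) (L : Finset ℕ),
      (∀ i < j, E i ⊆ x i ∧ (E i).card = κ ∧ Meas (lev l) (E i)) ∧
      (∀ i i', i < i' → i' < j → Disjoint (x i) (x i') → χ (E i) (E i') = q i) ∧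
      need c (J - j) ≤ L.card ∧
      (∀ l' ∈ L, l < l' ∧ l' ≤ M ∧ B ≤ c ^ j * hitM (lev l') (pat χ κ (hist E q j)) P') := by
    intro j
    induction j with
    | zero =>
      intro _
      refine ⟨fun _ => ∅, fun _ => ⟨0, hc⟩, 0, Finset.Icc 1 M, fun i hi => absurd hi (Nat.not_lt_zero i),
        fun i i' _ h => absurd h (Nat.not_lt_zero i'), ?_, ?_⟩
      · rw [Nat.card_Icc]
        simpa using hM
      · intro l' hl'
        rw [Finset.mem_Icc] at hl'
        refine ⟨by omega, hl'.2, ?_⟩
        have hPm : Meas (lev l') P' := meas_le hL l' 0 (Nat.zero_le _) hl'.2 hP'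
        obtain ⟨R, hR, hRm, hRh⟩ := hitM_exists (hne (hist (fun _ => ∅) (fun _ => ⟨0, hc⟩) 0)) hPm
        rw [pow_zero, one_mul, ← hR]
        by_contra hcon
        have h1 : κ ≤ (P' \ R).card := by
          have := Finset.le_card_sdiff R P'
          omega
        obtain ⟨Z, hZ, hZm, hZc⟩ := hL.sub l' hl'.2 (P' \ R) (meas_sdiff hPm hRm) h1
        refine hRh Z hZm ⟨hZc, ?_⟩ (hZ.trans Finset.sdiff_subset)
          (Finset.disjoint_of_subset_left hZ Finset.sdiff_disjoint)
        intro e he
        simp [hist] at he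
    | succ j ih =>
      intro hj
      obtain ⟨E, q, l, L, hE, hcol, hcard, hlev⟩ := ih (by omega)
      have hneed : need c (J - j) = c * need c (J - (j + 1)) + 1 := by
        have : J - j = (J - (j + 1)) + 1 := by omega
        rw [this]
        rfl
      rw [hneed] at hcard
      have hLne : L.Nonempty := Finset.card_pos.mp (by omega)
      set l₁ := L.min' hLne with hl₁
      have hl₁L : l₁ ∈ L := Finset.min'_mem L hLne
      obtain ⟨h1, h2, h3⟩ := hlev l₁ hl₁L
      obtain ⟨l₂, hl₂⟩ : ∃ l₂, l₁ = l₂ + 1 := ⟨l₁ - 1, by omega⟩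
      have hl₂M : l₂ < M := by omega
      set qC : Finset (Finset X × Fin c) :=
        ((range j).filter fun i => Disjoint (x i) (x j)).image fun i => (E i, q i) with hqC
      have hqCe : ∀ e ∈ qC, ∃ i < j, Disjoint (x i) (x j) ∧ e = (E i, q i) := by
        intro e he
        rw [hqC, Finset.mem_image] at he
        obtain ⟨i, hi, rfl⟩ := he
        rw [Finset.mem_filter, Finset.mem_range] at hi
        exact ⟨i, hi.1, hi.2, rfl⟩
      have hPm₁ : Meas (lev l₁) P' := meas_le hL l₁ 0 (Nat.zero_le _) h2 hP'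
      have hmono : hitM (lev l₁) (pat χ κ (hist E q j)) P' ≤ hitM (lev l₁) (pat χ κ qC) P' := by
        apply hitM_mono (hne qC) _ hPm₁
        intro Z hZ
        refine ⟨hZ.1, fun e he => ?_⟩
        obtain ⟨i, hi, _, rfl⟩ := hqCe e he
        exact hZ.2 _ (Finset.mem_image_of_mem _ (Finset.mem_range.mpr hi))
      have hcA : c ^ j ≤ A := le_trans (Nat.pow_le_pow_right hc (by omega)) hA
      have hBA : B ≤ A * hitM (lev (l₂ + 1)) (pat χ κ qC) P' := by
        rw [← hl₂]
        calc B ≤ _ := h3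
          _ ≤ A * hitM (lev l₁) (pat χ κ qC) P' := Nat.mul_le_mul hcA hmono
      obtain ⟨Z, hZm, hZp, hZs⟩ := hL.typ l₂ hl₂M qC (x j) P' (by
          intro e he
          obtain ⟨i, hi, _, rfl⟩ := hqCe e he
          exact meas_le hL l₂ l (by omega) (by omega) (hE i hi).2.2)
        (meas_le hL l₂ 0 (Nat.zero_le _) (by omega) (hx j (by omega)))
        (meas_le hL l₂ 0 (Nat.zero_le _) (by omega) hP') (hxc j (by omega)) (by
          intro e he
          obtain ⟨i, hi, hd, rfl⟩ := hqCe e he
          exact ⟨Finset.disjoint_of_subset_left (hE i hi).1 hd,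
            Finset.disjoint_of_subset_left (hE i hi).1 (hxd i (by omega))⟩) hBA
      rw [← hl₂] at hZm
      -- the new element
      set E' : ℕ → Finset X := Function.update E j Z with hE'
      have hE'lt : ∀ i < j, E' i = E i := fun i hi => by
        rw [hE', Function.update_of_ne (by omega)]
      have hE'j : E' j = Z := by rw [hE', Function.update_self]
      -- choice of the colour at every level
      have hcolour : ∀ l' ∈ L.erase l₁, ∃ i : Fin c,
          B ≤ c ^ (j + 1) * hitM (lev l') (pat χ κ (insert (Z, i) (hist E q j))) P' := by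
        intro l' hl'
        obtain ⟨_, h2', h3'⟩ := hlev l' (Finset.mem_of_mem_erase hl')
        have hPm' : Meas (lev l') P' := meas_le hL l' 0 (Nat.zero_le _) h2' hP'
        have hsum := hitM_sum (c := c) (f := lev l') (𝓖 := pat χ κ (hist E q j))
          (𝓖i := fun i => pat χ κ (insert (Z, i) (hist E q j))) (fun i W hW => hne _ W hW)
          (fun W hW => ⟨χ Z W, hW.1, fun e he => by
            rw [Finset.mem_insert] at he
            rcases he with rfl | he
            · rfl
            · exact hW.2 e he⟩) hPm'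
        by_contra hcon
        push Not at hcon
        have hlt : ∑ i : Fin c, c ^ (j + 1) *
            hitM (lev l') (pat χ κ (insert (Z, i) (hist E q j))) P' < c * B := by
          calc _ < ∑ _i : Fin c, B := by
                apply Finset.sum_lt_sum_of_nonempty ⟨⟨0, hc⟩, mem_univ _⟩
                intro i _
                exact hcon i
            _ = c * B := by simp
        rw [← Finset.mul_sum] at hlt
        have h5 : c * B ≤ c ^ (j + 1) * ∑ i : Fin c,
            hitM (lev l') (pat χ κ (insert (Z, i) (hist E q j))) P' := by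
          calc c * B ≤ c * (c ^ j * hitM (lev l') (pat χ κ (hist E q j)) P') :=
                Nat.mul_le_mul_left c h3'
            _ ≤ c * (c ^ j * ∑ i : Fin c,
                hitM (lev l') (pat χ κ (insert (Z, i) (hist E q j))) P') :=
                Nat.mul_le_mul_left c (Nat.mul_le_mul_left _ hsum)
            _ = _ := by ring
        omega
      have : Nonempty (Fin c) := ⟨⟨0, hc⟩⟩
      choose! φ hφ using hcolour
      obtain ⟨i, _, hi⟩ := Finset.exists_le_card_fiber_of_mul_le_card_of_maps_to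
        (s := L.erase l₁) (t := (univ : Finset (Fin c))) (f := φ)
        (n := need c (J - (j + 1))) (fun _ _ => mem_univ _) ⟨⟨0, hc⟩, mem_univ _⟩ (by
          rw [Finset.card_univ, Fintype.card_fin, Finset.card_erase_of_mem hl₁L]
          omega)
      set q' : ℕ → Fin c := Function.update q j i with hq'
      have hq'lt : ∀ s < j, q' s = q s := fun s hs => by
        rw [hq', Function.update_of_ne (by omega)]
      have hq'j : q' j = i := by rw [hq', Function.update_self]
      have hhist : hist E' q' (j + 1) = insert (Z, i) (hist E q j) := by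
        unfold hist
        rw [Finset.range_add_one, Finset.image_insert, hE'j, hq'j]
        congr 1
        apply Finset.image_congr
        intro s hs
        rw [Finset.mem_coe, Finset.mem_range] at hs
        simp only [hE'lt s hs, hq'lt s hs]
      refine ⟨E', q', l₁, (L.erase l₁).filter fun l' => φ l' = i, ?_, ?_, hi, ?_⟩
      · intro s hs
        rcases Nat.lt_or_ge s j with h | h
        · rw [hE'lt s h]
          exact ⟨(hE s h).1, (hE s h).2.1, meas_le hL l₁ l (by omega) h2 (hE s h).2.2⟩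
        · have : s = j := by omega
          subst this
          rw [hE'j]
          exact ⟨hZs, hZp.1, hZm⟩
      · intro s s' hss hs' hd
        rw [hE'lt s (by omega), hq'lt s (by omega)]
        rcases Nat.lt_or_ge s' j with h | h
        · rw [hE'lt s' h]
          exact hcol s s' hss h hd
        · have : s' = j := by omega
          subst this
          rw [hE'j]
          refine hZp.2 (E s, q s) ?_
          rw [hqC, Finset.mem_image]
          exact ⟨s, Finset.mem_filter.mpr ⟨Finset.mem_range.mpr (by omega), hd⟩, rfl⟩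
      · intro l' hl'
        rw [Finset.mem_filter] at hl'
        obtain ⟨hl'1, hl'2⟩ := hl'
        have hmem := Finset.mem_of_mem_erase hl'1
        refine ⟨?_, (hlev l' hmem).2.1, ?_⟩
        · have h4 : l₁ ≤ l' := Finset.min'_le L l' hmem
          have h5 : l' ≠ l₁ := Finset.ne_of_mem_erase hl'1
          omega
        · rw [hhist, ← hl'2]
          exact hφ l' hl'1
  obtain ⟨E, q, l, L, hE, hcol, hcard, hlev⟩ := main J le_rfl
  have hLne : L.Nonempty := Finset.card_pos.mp (by
    have := need_pos c (J - J)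
    omega)
  obtain ⟨l', hl'⟩ := hLne
  obtain ⟨_, _, h3⟩ := hlev l' hl'
  have hpos : 0 < hitM (lev l') (pat χ κ (hist E q J)) P' := by
    by_contra hcon
    have : hitM (lev l') (pat χ κ (hist E q J)) P' = 0 := by omega
    rw [this, mul_zero] at h3
    omega
  obtain ⟨Z, _, hZp, hZs⟩ := exists_of_hitM_pos hpos
  exact ⟨E, q, Z, fun j hj => ⟨(hE j hj).1, (hE j hj).2.1⟩, hcol, hZs, hZp.1,
    fun i hi => hZp.2 (E i, q i) (Finset.mem_image_of_mem _ (Finset.mem_range.mpr hi))⟩

end

end Pool.Agent.Q119.KR
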