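import Pool.Agent.Q119.KR.Hit

/-!
# Kneser graphs are edge Ramsey: typical coarsenings
-/

set_option autoImplicit false

open Finset

namespace Pool.Agent.Q119.KR

/-- The preimage of a finite set. -/
def pre {X Y : Type} [Fintype X] [DecidableEq Y] (φ : X → Y) (A : Finset Y) : Finset X :=
  univ.filter fun x => φ x ∈ A

theorem mem_pre {X Y : Type} [Fintype X] [DecidableEq Y] {φ : X → Y} {A : Finset Y} {x : X} :
    x ∈ pre φ A ↔ φ x ∈ A := by
  simp [pre]

/-- Sets with property `Q` whose colours to given sets are prescribed. -/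
def fam {Y Y₀ : Type} [Fintype Y] [DecidableEq Y₀] {c : ℕ} (Q : Finset Y → Prop)
    (χ : Finset Y → Finset Y → Fin c) (g : Y → Y₀) (q : Finset (Finset Y₀ × Fin c))
    (Z : Finset Y) : Prop :=
  Q Z ∧ ∀ e ∈ q, χ (pre g e.1) Z = e.2

variable {N b c : ℕ}

/-- The coarsening of `Fin N × Fin b` given by one permutation in every column. -/
def gm (σ : Fin b → Equiv.Perm (Fin N)) : Fin N × Fin b → Fin N := fun y => (σ y.2).symm y.1

/-- Twisting by a transposition in some columns. -/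
def tw (a a' : Fin N) (s : Fin b → Bool) (σ : Fin b → Equiv.Perm (Fin N)) :
    Fin b → Equiv.Perm (Fin N) :=
  fun t => if s t then σ t * Equiv.swap a a' else σ t

theorem gm_tw (a a' : Fin N) (s : Fin b → Bool) (σ : Fin b → Equiv.Perm (Fin N))
    (y : Fin N × Fin b) :
    gm (tw a a' s σ) y = if s y.2 then Equiv.swap a a' (gm σ y) else gm σ y := by
  unfold gm tw
  by_cases h : s y.2
  · simp only [h, if_true]
    rw [← Equiv.Perm.inv_def, mul_inv_rev, Equiv.swap_inv]
    rfl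
  · simp only [h]
    rfl

theorem swap_mem_iff {a a' : Fin N} {S : Finset (Fin N)} (ha : a ∉ S) (ha' : a' ∉ S)
    (z : Fin N) : Equiv.swap a a' z ∈ S ↔ z ∈ S := by
  by_cases h1 : z = a
  · subst h1
    simp [ha, ha']
  · by_cases h2 : z = a'
    · subst h2
      simp [ha, ha']
    · rw [Equiv.swap_apply_of_ne_of_ne h1 h2]

theorem pre_tw_fix {a a' : Fin N} (s : Fin b → Bool) (σ : Fin b → Equiv.Perm (Fin N))
    {S : Finset (Fin N)} (ha : a ∉ S) (ha' : a' ∉ S) :
    pre (gm (tw a a' s σ)) S = pre (gm σ) S := by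
  ext y
  rw [mem_pre, mem_pre, gm_tw]
  by_cases h : s y.2
  · simp only [h, if_true]
    exact swap_mem_iff ha ha' _
  · simp [h]

/-- The image of a set under a transposition. -/
def sw (a a' : Fin N) (G : Finset (Fin N)) : Finset (Fin N) :=
  G.map (Equiv.swap a a').toEmbedding

theorem mem_sw {a a' : Fin N} {G : Finset (Fin N)} {z : Fin N} :
    z ∈ sw a a' G ↔ Equiv.swap a a' z ∈ G := by
  unfold sw
  rw [Finset.mem_map_equiv, Equiv.symm_swap]

theorem pre_tw_neg (a a' : Fin N) (s : Fin b → Bool) (σ : Fin b → Equiv.Perm (Fin N))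
    (G : Finset (Fin N)) :
    pre (gm (tw a a' (fun t => !(s t)) σ)) G = pre (gm (tw a a' s σ)) (sw a a' G) := by
  ext y
  rw [mem_pre, mem_pre, gm_tw, gm_tw, mem_sw]
  by_cases h : s y.2
  · simp [h]
  · simp [h]

theorem card_diff_tw (a a' : Fin N) (s s' : Fin b → Bool) (t : Fin b)
    (hs : ∀ u, u ≠ t → s u = s' u) (σ : Fin b → Equiv.Perm (Fin N)) (G : Finset (Fin N)) :
    ((pre (gm (tw a a' s' σ)) G) \ (pre (gm (tw a a' s σ)) G)).card ≤ 1 := by
  rw [Finset.card_le_one]
  have key : ∀ y ∈ (pre (gm (tw a a' s' σ)) G) \ (pre (gm (tw a a' s σ)) G),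
      y.2 = t ∧ (gm σ y = a ∨ gm σ y = a') ∧
        ((s' t = true → Equiv.swap a a' (gm σ y) ∈ G ∧ gm σ y ∉ G) ∧
         (s' t = false → Equiv.swap a a' (gm σ y) ∉ G ∧ gm σ y ∈ G)) := by
    intro y hy
    rw [Finset.mem_sdiff, mem_pre, mem_pre, gm_tw, gm_tw] at hy
    have h2 : y.2 = t := by
      by_contra hne
      rw [hs _ hne] at hy
      exact hy.2 hy.1
    rw [h2] at hy
    have hss : s t = !(s' t) := by
      by_contra hne
      have : s t = s' t := by
        cases h1 : s t <;> cases h3 : s' t <;> simp_all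
      rw [this] at hy
      exact hy.2 hy.1
    have hmem : (gm σ y = a ∨ gm σ y = a') := by
      by_contra hcon
      push Not at hcon
      rw [Equiv.swap_apply_of_ne_of_ne hcon.1 hcon.2] at hy
      simp at hy
    refine ⟨h2, hmem, ?_, ?_⟩
    · intro h
      rw [h] at hss
      simp only [Bool.not_true] at hss
      simpa [h, hss] using hy
    · intro h
      rw [h] at hss
      simp only [Bool.not_false] at hss
      have := hy
      simp only [h, hss] at this
      simpa [and_comm] using this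
  intro y hy y' hy'
  obtain ⟨h1, h2, h3, h4⟩ := key y hy
  obtain ⟨h1', h2', h3', h4'⟩ := key y' hy'
  have hz : gm σ y = gm σ y' := by
    cases hst : s' t
    · have k := h4 hst
      have k' := h4' hst
      rcases h2 with h | h <;> rcases h2' with h' | h' <;> rw [h, h'] <;> exfalso <;>
        rw [h] at k <;> rw [h'] at k' <;> simp at k k'
      · exact k.1 k'.2
      · exact k.1 k'.2
    · have k := h3 hst
      have k' := h3' hst
      rcases h2 with h | h <;> rcases h2' with h' | h' <;> rw [h, h'] <;> exfalso <;>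
        rw [h] at k <;> rw [h'] at k' <;> simp at k k'
      · exact k'.2 k.1
      · exact k'.2 k.1
  have h2eq : y.2 = y'.2 := by rw [h1, h1']
  unfold gm at hz
  rw [← h2eq] at hz
  exact Prod.ext ((σ y.2).symm.injective hz) h2eq

/-- The hitting number of a coarse region. -/
noncomputable def hh (Q : Finset (Fin N × Fin b) → Prop)
    (χ : Finset (Fin N × Fin b) → Finset (Fin N × Fin b) → Fin c)
    (q : Finset (Finset (Fin N) × Fin c)) (G : Finset (Fin N))
    (σ : Fin b → Equiv.Perm (Fin N)) : ℝ :=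
  (hit (fam Q χ (gm σ) q) (pre (gm σ) G) : ℝ)

theorem fam_tw (Q : Finset (Fin N × Fin b) → Prop)
    (χ : Finset (Fin N × Fin b) → Finset (Fin N × Fin b) → Fin c)
    (q : Finset (Finset (Fin N) × Fin c)) {a a' : Fin N}
    (hq : ∀ e ∈ q, a ∉ e.1 ∧ a' ∉ e.1) (s : Fin b → Bool) (σ : Fin b → Equiv.Perm (Fin N)) :
    fam Q χ (gm (tw a a' s σ)) q = fam Q χ (gm σ) q := by
  funext Z
  unfold fam
  apply propext
  apply and_congr Iff.rfl
  constructor
  · intro h e he
    rw [← h e he, pre_tw_fix s σ (hq e he).1 (hq e he).2]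
  · intro h e he
    rw [← h e he, pre_tw_fix s σ (hq e he).1 (hq e he).2]

theorem sum_s (Q : Finset (Fin N × Fin b) → Prop) (hQ : ∀ Z, Q Z → Z.Nonempty)
    (χ : Finset (Fin N × Fin b) → Finset (Fin N × Fin b) → Fin c)
    (q : Finset (Finset (Fin N) × Fin c)) (G : Finset (Fin N)) {a a' : Fin N}
    (hq : ∀ e ∈ q, a ∉ e.1 ∧ a' ∉ e.1) (σ : Fin b → Equiv.Perm (Fin N)) :
    ∑ s : Fin b → Bool, (hh Q χ q G (tw a a' s σ) - hh Q χ q (sw a a' G) (tw a a' s σ)) ^ 2 ≤
      b * 2 ^ b := by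
  have hne : ∀ Z, fam Q χ (gm σ) q Z → Z.Nonempty := fun Z hZ => hQ Z hZ.1
  have h := var_bool b 1
    (fun s => (hit (fam Q χ (gm σ) q) (pre (gm (tw a a' s σ)) G) : ℝ)) (by
      intro s s' t hs
      have h1 := hit_lip hne (pre (gm (tw a a' s σ)) G) (pre (gm (tw a a' s' σ)) G)
      have h2 := hit_lip hne (pre (gm (tw a a' s' σ)) G) (pre (gm (tw a a' s σ)) G)
      have h3 := card_diff_tw a a' s s' t hs σ G
      have h4 := card_diff_tw a a' s' s t (fun u hu => (hs u hu).symm) σ G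
      have h5 : hit (fam Q χ (gm σ) q) (pre (gm (tw a a' s' σ)) G) ≤
        hit (fam Q χ (gm σ) q) (pre (gm (tw a a' s σ)) G) + 1 := by omega
      have h6 : hit (fam Q χ (gm σ) q) (pre (gm (tw a a' s σ)) G) ≤
        hit (fam Q χ (gm σ) q) (pre (gm (tw a a' s' σ)) G) + 1 := by omega
      have h5' : (hit (fam Q χ (gm σ) q) (pre (gm (tw a a' s' σ)) G) : ℝ) ≤
        hit (fam Q χ (gm σ) q) (pre (gm (tw a a' s σ)) G) + 1 := by exact_mod_cast h5
      have h6' : (hit (fam Q χ (gm σ) q) (pre (gm (tw a a' s σ)) G) : ℝ) ≤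
        hit (fam Q χ (gm σ) q) (pre (gm (tw a a' s' σ)) G) + 1 := by exact_mod_cast h6
      rw [abs_le]
      constructor <;> linarith)
  have e : ∀ s : Fin b → Bool,
      (hh Q χ q G (tw a a' s σ) - hh Q χ q (sw a a' G) (tw a a' s σ)) ^ 2 =
      ((hit (fam Q χ (gm σ) q) (pre (gm (tw a a' s σ)) G) : ℝ) -
        (hit (fam Q χ (gm σ) q) (pre (gm (tw a a' (fun t => !(s t)) σ)) G) : ℝ)) ^ 2 := by
    intro s
    unfold hh
    rw [fam_tw Q χ q hq s σ, pre_tw_neg]
  rw [Finset.sum_congr rfl fun s _ => e s]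
  calc _ ≤ (b : ℝ) * 1 ^ 2 * 2 ^ b := h
    _ = b * 2 ^ b := by ring

/-- Twisting is a bijection. -/
def twE (a a' : Fin N) (s : Fin b → Bool) :
    (Fin b → Equiv.Perm (Fin N)) ≃ (Fin b → Equiv.Perm (Fin N)) :=
  Equiv.piCongrRight fun t => if s t then Equiv.mulRight (Equiv.swap a a') else Equiv.refl _

theorem twE_apply (a a' : Fin N) (s : Fin b → Bool) (σ : Fin b → Equiv.Perm (Fin N)) :
    twE a a' s σ = tw a a' s σ := by
  funext t
  unfold twE tw
  by_cases h : s t
  · simp [h]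
  · simp [h]

theorem sum_sigma (Q : Finset (Fin N × Fin b) → Prop) (hQ : ∀ Z, Q Z → Z.Nonempty)
    (χ : Finset (Fin N × Fin b) → Finset (Fin N × Fin b) → Fin c)
    (q : Finset (Finset (Fin N) × Fin c)) (G : Finset (Fin N)) {a a' : Fin N}
    (hq : ∀ e ∈ q, a ∉ e.1 ∧ a' ∉ e.1) :
    ∑ σ : Fin b → Equiv.Perm (Fin N), (hh Q χ q G σ - hh Q χ q (sw a a' G) σ) ^ 2 ≤
      b * Fintype.card (Fin b → Equiv.Perm (Fin N)) := by
  have h1 : ∀ s : Fin b → Bool,
      ∑ σ : Fin b → Equiv.Perm (Fin N),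
        (hh Q χ q G (tw a a' s σ) - hh Q χ q (sw a a' G) (tw a a' s σ)) ^ 2 =
      ∑ σ : Fin b → Equiv.Perm (Fin N), (hh Q χ q G σ - hh Q χ q (sw a a' G) σ) ^ 2 := by
    intro s
    rw [← (twE a a' s).sum_comp fun σ => (hh Q χ q G σ - hh Q χ q (sw a a' G) σ) ^ 2]
    refine Finset.sum_congr rfl fun σ _ => ?_
    rw [twE_apply]
  have h2 : ∑ s : Fin b → Bool, ∑ σ : Fin b → Equiv.Perm (Fin N),
        (hh Q χ q G (tw a a' s σ) - hh Q χ q (sw a a' G) (tw a a' s σ)) ^ 2 ≤
      Fintype.card (Fin b → Equiv.Perm (Fin N)) * (b * 2 ^ b : ℝ) := by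
    rw [Finset.sum_comm]
    calc _ ≤ ∑ σ : Fin b → Equiv.Perm (Fin N), (b * 2 ^ b : ℝ) :=
          Finset.sum_le_sum fun σ _ => sum_s Q hQ χ q G hq σ
      _ = _ := by rw [Finset.sum_const, Finset.card_univ, nsmul_eq_mul]
  rw [Finset.sum_congr rfl fun s _ => h1 s, Finset.sum_const, Finset.card_univ,
    nsmul_eq_mul] at h2
  have h3 : ((Fintype.card (Fin b → Bool) : ℕ) : ℝ) = 2 ^ b := by simp
  rw [h3] at h2
  have h4 : (0 : ℝ) < 2 ^ b := by positivity
  have h5 : (2 : ℝ) ^ b * ∑ σ : Fin b → Equiv.Perm (Fin N),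
      (hh Q χ q G σ - hh Q χ q (sw a a' G) σ) ^ 2 ≤
      2 ^ b * (b * Fintype.card (Fin b → Equiv.Perm (Fin N))) := by
    calc _ ≤ _ := h2
      _ = _ := by ring
  exact le_of_mul_le_mul_left h5 h4

/-- The number of tests. -/
def cnt (N c : ℕ) : ℕ :=
  Fintype.card (Finset (Finset (Fin N) × Fin c) × Finset (Fin N) × Fin N × Fin N)

theorem exists_sigma (Q : Finset (Fin N × Fin b) → Prop) (hQ : ∀ Z, Q Z → Z.Nonempty)
    (χ : Finset (Fin N × Fin b) → Finset (Fin N × Fin b) → Fin c) (θ : ℝ) (hθ : 0 < θ)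
    (hcnt : (cnt N c : ℝ) * b < θ ^ 2) :
    ∃ σ : Fin b → Equiv.Perm (Fin N), ∀ (q : Finset (Finset (Fin N) × Fin c))
      (G : Finset (Fin N)) (a a' : Fin N), (∀ e ∈ q, a ∉ e.1 ∧ a' ∉ e.1) →
      |hh Q χ q G σ - hh Q χ q (sw a a' G) σ| < θ := by
  classical
  by_contra hcon
  push Not at hcon
  set P : ℝ := (Fintype.card (Fin b → Equiv.Perm (Fin N)) : ℝ) with hP
  have hPpos : 0 < P := by
    rw [hP]
    exact_mod_cast Fintype.card_pos
  set F : (Fin b → Equiv.Perm (Fin N)) →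
      (Finset (Finset (Fin N) × Fin c) × Finset (Fin N) × Fin N × Fin N) → ℝ :=
    fun σ i => if (∀ e ∈ i.1, i.2.2.1 ∉ e.1 ∧ i.2.2.2 ∉ e.1) then
      (hh Q χ i.1 i.2.1 σ - hh Q χ i.1 (sw i.2.2.1 i.2.2.2 i.2.1) σ) ^ 2 else 0 with hF
  have hF0 : ∀ σ i, 0 ≤ F σ i := by
    intro σ i
    simp only [hF]
    split_ifs
    · positivity
    · exact le_rfl
  have h1 : ∀ σ, θ ^ 2 ≤ ∑ i, F σ i := by
    intro σ
    obtain ⟨q, G, a, a', hq, hle⟩ := hcon σ
    calc θ ^ 2 ≤ F σ (q, G, a, a') := by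
          simp only [hF]
          rw [if_pos hq]
          rw [← sq_abs (hh Q χ q G σ - hh Q χ q (sw a a' G) σ)]
          exact pow_le_pow_left₀ hθ.le hle 2
      _ ≤ ∑ i, F σ i := Finset.single_le_sum (fun i _ => hF0 σ i) (mem_univ _)
  have h2 : P * θ ^ 2 ≤ ∑ σ, ∑ i, F σ i := by
    calc P * θ ^ 2 = ∑ _σ : Fin b → Equiv.Perm (Fin N), θ ^ 2 := by
          rw [Finset.sum_const, Finset.card_univ, nsmul_eq_mul]
      _ ≤ _ := Finset.sum_le_sum fun σ _ => h1 σ
  have h3 : ∑ σ, ∑ i, F σ i ≤ cnt N c * (b * P) := by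
    rw [Finset.sum_comm]
    calc ∑ i, ∑ σ, F σ i ≤ ∑ _i : (Finset (Finset (Fin N) × Fin c) × Finset (Fin N) × Fin N ×
            Fin N), (b * P : ℝ) := by
          refine Finset.sum_le_sum fun i _ => ?_
          simp only [hF]
          by_cases hi : ∀ e ∈ i.1, i.2.2.1 ∉ e.1 ∧ i.2.2.2 ∉ e.1
          · simp only [if_pos hi]
            exact sum_sigma Q hQ χ i.1 i.2.1 hi
          · simp only [if_neg hi]
            simp only [Finset.sum_const_zero]
            positivity
      _ = cnt N c * (b * P) := by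
          rw [Finset.sum_const, Finset.card_univ, nsmul_eq_mul]
          rfl
  have h4 : P * θ ^ 2 ≤ P * (cnt N c * b) := by
    calc _ ≤ _ := h2
      _ ≤ _ := h3
      _ = _ := by ring
  have h5 := le_of_mul_le_mul_left h4 hPpos
  linarith

theorem chain (Q : Finset (Fin N × Fin b) → Prop)
    (χ : Finset (Fin N × Fin b) → Finset (Fin N × Fin b) → Fin c) (θ : ℝ)
    (σ : Fin b → Equiv.Perm (Fin N)) (q : Finset (Finset (Fin N) × Fin c))
    (hσ : ∀ (G : Finset (Fin N)) (a a' : Fin N), (∀ e ∈ q, a ∉ e.1 ∧ a' ∉ e.1) →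
      |hh Q χ q G σ - hh Q χ q (sw a a' G) σ| < θ) :
    ∀ (k : ℕ) (G G' : Finset (Fin N)), (G \ G').card = k → G.card = G'.card →
      (∀ e ∈ q, Disjoint e.1 G ∧ Disjoint e.1 G') →
      |hh Q χ q G σ - hh Q χ q G' σ| ≤ k * θ := by
  intro k
  induction k with
  | zero =>
    intro G G' h0 hc _
    have hsub : G ⊆ G' := by
      rw [← Finset.sdiff_eq_empty_iff_subset]
      exact Finset.card_eq_zero.mp h0
    have : G = G' := Finset.eq_of_subset_of_card_le hsub hc.ge
    subst this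
    simp
  | succ k ih =>
    intro G G' h0 hc hd
    have h0' : (G' \ G).card = k + 1 := by
      rw [← h0]
      exact Finset.card_sdiff_comm hc.symm
    obtain ⟨a, ha⟩ : (G \ G').Nonempty := Finset.card_pos.mp (by omega)
    obtain ⟨a', ha'⟩ : (G' \ G).Nonempty := Finset.card_pos.mp (by omega)
    rw [Finset.mem_sdiff] at ha ha'
    have hG1 : sw a a' G = insert a' (G.erase a) := by
      ext z
      rw [mem_sw, Finset.mem_insert, Finset.mem_erase]
      by_cases h1 : z = a
      · subst h1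
        rw [Equiv.swap_apply_left]
        constructor
        · intro h; exact absurd h ha'.2
        · rintro (h | h)
          · rw [h] at ha; exact absurd ha'.1 ha.2
          · exact absurd rfl h.1
      · by_cases h2 : z = a'
        · subst h2
          rw [Equiv.swap_apply_right]
          simp [ha.1]
        · rw [Equiv.swap_apply_of_ne_of_ne h1 h2]
          simp [h1, h2]
    have hd1 : ∀ e ∈ q, Disjoint e.1 (sw a a' G) ∧ Disjoint e.1 G' := by
      intro e he
      refine ⟨?_, (hd e he).2⟩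
      rw [hG1, Finset.disjoint_insert_right]
      refine ⟨fun h => Finset.disjoint_left.mp (hd e he).2 h ha'.1, ?_⟩
      exact Finset.disjoint_of_subset_right (Finset.erase_subset _ _) (hd e he).1
    have hcard1 : (sw a a' G).card = G'.card := by
      rw [← hc]
      unfold sw
      rw [Finset.card_map]
    have hk : (sw a a' G \ G').card = k := by
      have : sw a a' G \ G' = (G \ G').erase a := by
        rw [hG1]
        ext z
        simp only [Finset.mem_sdiff, Finset.mem_insert, Finset.mem_erase]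
        constructor
        · rintro ⟨h | h, h'⟩
          · rw [h] at h'; exact absurd ha'.1 h'
          · exact ⟨h.1, h.2, h'⟩
        · rintro ⟨h1, h2, h3⟩
          exact ⟨Or.inr ⟨h1, h2⟩, h3⟩
      rw [this, Finset.card_erase_of_mem (Finset.mem_sdiff.mpr ha), h0]
      rfl
    have h1 := ih (sw a a' G) G' hk hcard1 hd1
    have h2 := hσ G a a' (fun e he => ⟨fun h => Finset.disjoint_left.mp (hd e he).1 h ha.1,
      fun h => Finset.disjoint_left.mp (hd e he).2 h ha'.1⟩)
    calc |hh Q χ q G σ - hh Q χ q G' σ|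
        = |(hh Q χ q G σ - hh Q χ q (sw a a' G) σ) +
            (hh Q χ q (sw a a' G) σ - hh Q χ q G' σ)| := by ring_nf
      _ ≤ |hh Q χ q G σ - hh Q χ q (sw a a' G) σ| +
            |hh Q χ q (sw a a' G) σ - hh Q χ q G' σ| := abs_add_le _ _
      _ ≤ θ + k * θ := by linarith
      _ = ((k + 1 : ℕ) : ℝ) * θ := by push_cast; ring

theorem fiber_gm (σ : Fin b → Equiv.Perm (Fin N)) (i : Fin N) :
    (univ.filter fun y => gm σ y = i).card = b := by
  have : (univ.filter fun y => gm σ y = i) = univ.image fun t : Fin b => ((σ t i, t) : Fin N × Fin b) := by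
    ext y
    simp only [Finset.mem_filter, Finset.mem_univ, true_and, Finset.mem_image]
    constructor
    · intro h
      refine ⟨y.2, ?_⟩
      rw [← h]
      unfold gm
      simp
    · rintro ⟨t, rfl⟩
      simp [gm]
  rw [this, Finset.card_image_of_injective]
  · simp
  · intro t t' h
    exact (Prod.ext_iff.mp h).2

/-- Typical coarsenings exist: for all small patterns of coarse sets, two coarse regions of the
same size which avoid these sets are both rich or both poor in sets with that pattern. -/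
theorem typ (N c A : ℕ) : ∃ b₀ : ℕ, ∀ b ≥ b₀, ∀ (Q : Finset (Fin N × Fin b) → Prop),
    (∀ Z, Q Z → Z.Nonempty) →
    ∀ (χ : Finset (Fin N × Fin b) → Finset (Fin N × Fin b) → Fin c),
    ∃ g : Fin N × Fin b → Fin N, (∀ i, (univ.filter fun y => g y = i).card = b) ∧
      ∀ (q : Finset (Finset (Fin N) × Fin c)) (G G' : Finset (Fin N)), G.card = G'.card →
        (∀ e ∈ q, Disjoint e.1 G ∧ Disjoint e.1 G') →
        b ≤ A * hit (fam Q χ g q) (pre g G') → ∃ Z, fam Q χ g q Z ∧ Z ⊆ pre g G := by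
  refine ⟨cnt N c * ((N + 1) * (A + 1)) ^ 2 + 1, fun b hb Q hQ χ => ?_⟩
  have hbpos : (0 : ℝ) < b := by
    have : 0 < b := by omega
    exact_mod_cast this
  have hM : (0 : ℝ) < (N + 1) * (A + 1) := by positivity
  set θ : ℝ := b / ((N + 1) * (A + 1)) with hθ
  have hθpos : 0 < θ := div_pos hbpos hM
  have hcnt : (cnt N c : ℝ) * b < θ ^ 2 := by
    rw [hθ, div_pow, lt_div_iff₀ (by positivity)]
    have h1 : (cnt N c : ℝ) * ((N + 1) * (A + 1)) ^ 2 < b := by
      have : cnt N c * ((N + 1) * (A + 1)) ^ 2 < b := by omega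
      exact_mod_cast this
    calc (cnt N c : ℝ) * b * ((N + 1) * (A + 1)) ^ 2
        = ((cnt N c : ℝ) * ((N + 1) * (A + 1)) ^ 2) * b := by ring
      _ < (b : ℝ) * b := mul_lt_mul_of_pos_right h1 hbpos
      _ = (b : ℝ) ^ 2 := by ring
  obtain ⟨σ, hσ⟩ := exists_sigma Q hQ χ θ hθpos hcnt
  refine ⟨gm σ, fiber_gm σ, fun q G G' hc hd hA => ?_⟩
  apply exists_of_hit_pos
  by_contra hcon
  push Not at hcon
  have h0 : hh Q χ q G σ = 0 := by
    unfold hh
    exact_mod_cast Nat.le_zero.mp hcon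
  have h1 := chain Q χ θ σ q (fun G a a' h => hσ q G a a' h) _ G G' rfl hc hd
  have h2 : ((G \ G').card : ℝ) ≤ N := by
    have : (G \ G').card ≤ N := by
      calc _ ≤ (univ : Finset (Fin N)).card := Finset.card_le_univ _
        _ = N := by simp
    exact_mod_cast this
  have h3 : (b : ℝ) ≤ A * hh Q χ q G' σ := by
    unfold hh
    exact_mod_cast hA
  rw [h0, zero_sub, abs_neg] at h1
  have h4 : hh Q χ q G' σ ≤ N * θ :=
    calc hh Q χ q G' σ ≤ |hh Q χ q G' σ| := le_abs_self _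
      _ ≤ _ := h1
      _ ≤ _ := mul_le_mul_of_nonneg_right h2 hθpos.le
  have h5 : (b : ℝ) ≤ A * (N * θ) := h3.trans (mul_le_mul_of_nonneg_left h4 (by positivity))
  have h6 : (A : ℝ) * (N * θ) < b := by
    rw [hθ]
    have e : (A : ℝ) * (N * (b / ((N + 1) * (A + 1)))) = (A * N) * b / ((N + 1) * (A + 1)) := by
      ring
    rw [e, div_lt_iff₀ hM]
    have hA0 : (0 : ℝ) ≤ A := by positivity
    have hN0 : (0 : ℝ) ≤ N := by positivity
    nlinarith [mul_nonneg hA0 hN0, mul_nonneg hA0 hbpos.le, mul_nonneg hN0 hbpos.le]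
  linarith

end Pool.Agent.Q119.KR
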